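import Mathlib
import Pool.Agent.N963.GN.Stm

set_option autoImplicit false

/-!
# Limits of real-rooted polynomials (task B of `Pool.Agent.N963.GN.Stm`)
-/

namespace Pool.Agent.N252.GN

open Complex Filter Topology Polynomial
open scoped ComplexConjugate
open Pool.Agent.N963.GN

/-! ### Real-rooted polynomials -/

/-- All roots are real. -/
def RP (P : ℂ[X]) : Prop := ∀ w, P.IsRoot w → w.im = 0

lemma RP.ne_zero {P : ℂ[X]} (h : RP P) : P ≠ 0 := by
  rintro rfl
  have := h I (by simp [IsRoot])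
  simp at this

lemma RP.eval_ne {P : ℂ[X]} (h : RP P) {z : ℂ} (hz : z.im ≠ 0) : P.eval z ≠ 0 :=
  fun h0 => hz (h z h0)

/-- Sum representation of the logarithmic derivative. -/
lemma RP.exists_sum {P : ℂ[X]} (h : RP P) : ∃ (n : ℕ) (x : Fin n → ℝ),
    ∀ z : ℂ, P.eval z ≠ 0 → (∀ i, z - x i ≠ 0) ∧
      P.derivative.eval z / P.eval z = ∑ i, 1 / (z - x i) := by
  refine ⟨P.roots.toList.length, fun i => (P.roots.toList[(i : ℕ)]).re, fun z hz => ?_⟩
  have hre : ∀ i : Fin P.roots.toList.length, (((P.roots.toList[(i : ℕ)]).re : ℝ) : ℂ) = P.roots.toList[(i : ℕ)] := by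
    intro i
    have hmem : P.roots.toList[(i : ℕ)] ∈ P.roots := by
      rw [← Multiset.mem_toList]; exact List.getElem_mem _
    have hr := (mem_roots h.ne_zero).1 hmem
    apply Complex.ext
    · simp
    · simp [h _ hr]
  refine ⟨fun i h0 => ?_, ?_⟩
  · rw [hre i] at h0
    have hmem : P.roots.toList[(i : ℕ)] ∈ P.roots := by
      rw [← Multiset.mem_toList]; exact List.getElem_mem _
    have hr := (mem_roots h.ne_zero).1 hmem
    rw [sub_eq_zero.1 h0] at hz
    exact hz hr
  · rw [Polynomial.Splits.eval_derivative_div_eval_of_ne_zero (IsAlgClosed.splits _) hz]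
    have h1 : ∑ i : Fin P.roots.toList.length, 1 / (z - (((P.roots.toList[(i : ℕ)]).re : ℝ) : ℂ)) =
        ∑ i : Fin P.roots.toList.length, (fun w => 1 / (z - w)) P.roots.toList[(i : ℕ)] := by
      apply Finset.sum_congr rfl
      intro i _
      rw [hre i]
    have h2 := Fin.sum_univ_fun_getElem P.roots.toList (fun w => 1 / (z - w))
    rw [h1]
    refine Eq.trans ?_ h2.symm
    rw [← Multiset.sum_coe, ← Multiset.map_coe, Multiset.coe_toList]

/-- The second derivative formula. -/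
lemma RP.second {P : ℂ[X]} {n : ℕ} {x : Fin n → ℝ}
    (hx : ∀ z : ℂ, P.eval z ≠ 0 → (∀ i, z - x i ≠ 0) ∧
      P.derivative.eval z / P.eval z = ∑ i, 1 / (z - x i)) {z : ℂ} (hz : P.eval z ≠ 0) :
    (P.derivative.derivative.eval z * P.eval z - P.derivative.eval z * P.derivative.eval z) /
      P.eval z ^ 2 = - ∑ i, 1 / (z - x i) ^ 2 := by
  have h1 : HasDerivAt (fun z => P.derivative.eval z / P.eval z)
      ((P.derivative.derivative.eval z * P.eval z - P.derivative.eval z * P.derivative.eval z) /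
      P.eval z ^ 2) z := by
    have ha := P.derivative.hasDerivAt z
    have hb := P.hasDerivAt z
    exact ha.fun_div hb hz
  have h2 : HasDerivAt (fun z : ℂ => ∑ i, 1 / (z - x i)) (∑ i, -(1 / (z - x i) ^ 2)) z := by
    apply HasDerivAt.fun_sum
    intro i _
    have h3 : HasDerivAt (fun z : ℂ => z - x i) 1 z := (hasDerivAt_id z).sub_const _
    have h4 := h3.fun_inv ((hx z hz).1 i)
    simpa [one_div, neg_div] using h4
  have h5 : (fun z => P.derivative.eval z / P.eval z) =ᶠ[𝓝 z] (fun z : ℂ => ∑ i, 1 / (z - x i)) := by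
    have h6 : ∀ᶠ w in 𝓝 z, P.eval w ≠ 0 := P.continuous.continuousAt.eventually_ne hz
    filter_upwards [h6] with w hw
    exact (hx w hw).2
  have h7 := (h1.congr_of_eventuallyEq h5.symm).unique h2
  rw [h7, Finset.sum_neg_distrib]

lemma im_term (z : ℂ) (x : ℝ) : (1 / (z - x)).im = -(z.im / normSq (z - x)) := by
  rw [one_div, inv_im]
  simp [neg_div]

lemma im_sum {n : ℕ} (x : Fin n → ℝ) (z : ℂ) :
    -(∑ i, 1 / (z - x i)).im = z.im * ∑ i, 1 / normSq (z - x i) := by
  rw [Complex.im_sum, ← Finset.sum_neg_distrib, Finset.mul_sum]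
  apply Finset.sum_congr rfl
  intro i _
  rw [im_term]
  ring

/-! ### Polynomial inequalities -/

lemma p1 {n : ℕ} (x : Fin n → ℝ) (z : ℂ) (hz : 0 < z.im) :
    0 ≤ -(∑ i, 1 / (z - x i)).im ∧
      ‖- ∑ i, 1 / (z - x i) ^ 2‖ * z.im ≤ -(∑ i, 1 / (z - x i)).im := by
  rw [im_sum]
  refine ⟨mul_nonneg hz.le (Finset.sum_nonneg fun i _ => one_div_nonneg.2 (normSq_nonneg _)), ?_⟩
  rw [mul_comm, norm_neg]
  apply mul_le_mul_of_nonneg_left _ hz.le
  refine (norm_sum_le _ _).trans (le_of_eq ?_)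
  apply Finset.sum_congr rfl
  intro i _
  rw [norm_div, norm_one, norm_pow, ← Complex.normSq_eq_norm_sq]

lemma p3 {n : ℕ} (x : Fin n → ℝ) (z w : ℂ) (hz : 0 < z.im) (hw : 0 < w.im) :
    ‖∑ i, 1 / (z - x i) - ∑ i, 1 / (w - x i)‖ ^ 2 * (z.im * w.im) ≤
      ‖z - w‖ ^ 2 * ((∑ i, 1 / (z - x i)).im * (∑ i, 1 / (w - x i)).im) := by
  have hz' : ∀ i, z - x i ≠ 0 := fun i h => by
    have := congrArg Complex.im h
    simp at this
    exact hz.ne' this
  have hw' : ∀ i, w - x i ≠ 0 := fun i h => by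
    have := congrArg Complex.im h
    simp at this
    exact hw.ne' this
  have h1 : ∑ i, 1 / (z - x i) - ∑ i, 1 / (w - x i) =
      (w - z) * ∑ i, 1 / ((z - x i) * (w - x i)) := by
    rw [← Finset.sum_sub_distrib, Finset.mul_sum]
    apply Finset.sum_congr rfl
    intro i _
    have := hz' i
    have := hw' i
    field_simp
    ring
  have h2 : ‖∑ i, 1 / ((z - x i) * (w - x i))‖ ≤ ∑ i, (1 / ‖z - x i‖) * (1 / ‖w - x i‖) := by
    refine (norm_sum_le _ _).trans (le_of_eq ?_)
    apply Finset.sum_congr rfl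
    intro i _
    rw [norm_div, norm_one, norm_mul, one_div_mul_one_div]
  have h3 := Finset.sum_mul_sq_le_sq_mul_sq Finset.univ (fun i => 1 / ‖z - x i‖)
    (fun i => 1 / ‖w - x i‖)
  have h4 : ∀ v : ℂ, ∑ i, (1 / ‖v - x i‖) ^ 2 = ∑ i, 1 / normSq (v - x i) := by
    intro v
    apply Finset.sum_congr rfl
    intro i _
    rw [div_pow, one_pow, Complex.normSq_eq_norm_sq]
  rw [h4 z, h4 w] at h3
  have h5 : (∑ i, 1 / (z - x i)).im * (∑ i, 1 / (w - x i)).im =
      (z.im * w.im) * ((∑ i, 1 / normSq (z - x i)) * ∑ i, 1 / normSq (w - x i)) := by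
    have ha := im_sum x z
    have hb := im_sum x w
    have : (∑ i, 1 / (z - x i)).im * (∑ i, 1 / (w - x i)).im =
      (-(∑ i, 1 / (z - x i)).im) * (-(∑ i, 1 / (w - x i)).im) := by ring
    rw [this, ha, hb]
    ring
  rw [h5, h1, norm_mul, mul_pow, norm_sub_rev w z]
  have h6 : ‖∑ i, 1 / ((z - x i) * (w - x i))‖ ^ 2 ≤
      (∑ i, 1 / normSq (z - x i)) * ∑ i, 1 / normSq (w - x i) :=
    (pow_le_pow_left₀ (norm_nonneg _) h2 2).trans h3
  calc ‖z - w‖ ^ 2 * ‖∑ i, 1 / ((z - x i) * (w - x i))‖ ^ 2 * (z.im * w.im)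
      ≤ ‖z - w‖ ^ 2 * ((∑ i, 1 / normSq (z - x i)) * ∑ i, 1 / normSq (w - x i)) * (z.im * w.im) := by
        gcongr
    _ = _ := by ring

lemma p4 {n : ℕ} (x : Fin n → ℝ) (z w : ℂ) (η h : ℝ) (hη : 0 < η) (hηh : η ≤ h) (hw : w.im = h)
    (hz : η ≤ z.im) (hz2 : z.im ≤ 2 * h) (hre : |z.re - w.re| ≤ h) :
    -(∑ i, 1 / (z - x i)).im ≤ 20 * (h / η) ^ 2 * (-(∑ i, 1 / (w - x i)).im) := by
  rw [im_sum, im_sum, Finset.mul_sum, Finset.mul_sum, Finset.mul_sum]
  apply Finset.sum_le_sum
  intro i _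
  have hh : 0 < h := hη.trans_le hηh
  have hyz : 0 < z.im := hη.trans_le hz
  have e1 : normSq (z - x i) = (z.re - x i) ^ 2 + z.im ^ 2 := by
    rw [normSq_apply]; simp; ring
  have e2 : normSq (w - x i) = (w.re - x i) ^ 2 + h ^ 2 := by
    rw [normSq_apply]; simp [hw]; ring
  have p1 : 0 < normSq (z - x i) := by rw [e1]; positivity
  have p2 : 0 < normSq (w - x i) := by rw [e2]; positivity
  have key : z.im * normSq (w - x i) ≤ 20 * (h / η) ^ 2 * h * normSq (z - x i) := by
    have a1 : normSq (w - x i) ≤ 2 * (z.re - x i) ^ 2 + 3 * h ^ 2 := by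
      rw [e2]
      have : (w.re - z.re) ^ 2 ≤ h ^ 2 := by
        rw [abs_le] at hre
        nlinarith
      nlinarith [sq_nonneg ((z.re - x i) - (w.re - z.re))]
    have a2 : z.im * normSq (w - x i) ≤ 2 * h * (2 * (z.re - x i) ^ 2 + 3 * h ^ 2) := by
      gcongr
    have a3 : 1 ≤ (h / η) ^ 2 := one_le_pow₀ ((one_le_div hη).2 hηh)
    have a4 : h ^ 2 ≤ (h / η) ^ 2 * z.im ^ 2 := by
      rw [div_pow, div_mul_eq_mul_div, le_div_iff₀ (by positivity)]
      gcongr
    rw [e1]
    have a5 : 20 * (h / η) ^ 2 * h * ((z.re - x i) ^ 2 + z.im ^ 2) =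
      20 * h * ((h / η) ^ 2 * (z.re - x i) ^ 2) + 20 * h * ((h / η) ^ 2 * z.im ^ 2) := by ring
    rw [a5]
    have a6 : (z.re - x i) ^ 2 ≤ (h / η) ^ 2 * (z.re - x i) ^ 2 := by
      nlinarith [sq_nonneg (z.re - x i)]
    have a7 : h * (z.re - x i) ^ 2 ≤ h * ((h / η) ^ 2 * (z.re - x i) ^ 2) := by gcongr
    have a8 : h * h ^ 2 ≤ h * ((h / η) ^ 2 * z.im ^ 2) := by gcongr
    have a9 : 0 ≤ h * (z.re - x i) ^ 2 := by positivity
    have a10 : 0 ≤ h * h ^ 2 := by positivity
    nlinarith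
  rw [mul_one_div, hw, mul_one_div, ← mul_div_assoc, div_le_div_iff₀ p1 p2]
  linarith

lemma p2 {n : ℕ} (x : Fin n → ℝ) (t η : ℝ) (hη : 0 < η) (ht : ∀ i, (t : ℂ) - x i ≠ 0) :
    -(∑ i, 1 / (((t : ℂ) + η * I) - x i)).im ≤ η * (∑ i, 1 / ((t : ℂ) - x i) ^ 2).re := by
  rw [im_sum]
  have him : ((t : ℂ) + η * I).im = η := by simp
  rw [him]
  apply mul_le_mul_of_nonneg_left _ hη.le
  rw [Complex.re_sum]
  apply Finset.sum_le_sum
  intro i _
  have e1 : normSq ((t : ℂ) + η * I - x i) = (t - x i) ^ 2 + η ^ 2 := by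
    rw [normSq_apply]; simp; ring
  have e2 : (1 / ((t : ℂ) - x i) ^ 2).re = 1 / (t - x i) ^ 2 := by
    rw [← ofReal_sub, ← ofReal_pow, ← ofReal_one, ← ofReal_div, ofReal_re]
  have h0 : t - x i ≠ 0 := by
    have := ht i
    intro h
    apply this
    rw [← ofReal_sub, h, ofReal_zero]
  rw [e1, e2]
  have : 0 < (t - x i) ^ 2 := by positivity
  apply one_div_le_one_div_of_le this
  nlinarith

lemma p2' {n : ℕ} (x : Fin n → ℝ) (t : ℝ) : (∑ i, 1 / ((t : ℂ) - x i) ^ 2).im = 0 := by
  rw [Complex.im_sum]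
  apply Finset.sum_eq_zero
  intro i _
  rw [← ofReal_sub, ← ofReal_pow, ← ofReal_one, ← ofReal_div, ofReal_im]

/-! ### Limits -/

variable {f : ℂ → ℂ} {Q : ℕ → ℂ[X]}

lemma tend_der (hT : TendstoLocallyUniformly (fun (N : ℕ) (w : ℂ) => (Q N).eval w) f atTop) :
    TendstoLocallyUniformly (fun (N : ℕ) (w : ℂ) => (Q N).derivative.eval w) (deriv f) atTop := by
  rw [← tendstoLocallyUniformlyOn_univ] at hT ⊢
  have h := hT.deriv (Eventually.of_forall fun N => (Q N).differentiable.differentiableOn) isOpen_univ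
  have e : (deriv ∘ fun (N : ℕ) (w : ℂ) => (Q N).eval w) =
      fun (N : ℕ) (w : ℂ) => (Q N).derivative.eval w := by
    funext N w
    simp
  rwa [e] at h

lemma tend_at {F : ℕ → ℂ → ℂ} {g : ℂ → ℂ} (hT : TendstoLocallyUniformly F g atTop) (z : ℂ) :
    Tendsto (fun N => F N z) atTop (𝓝 (g z)) := by
  rw [← tendstoLocallyUniformlyOn_univ] at hT
  exact hT.tendsto_at (Set.mem_univ z)

/-- Hurwitz. -/
lemma ne_zero_of_im (hf : Differentiable ℂ f) (hne : ∃ z, f z ≠ 0) (hQ : ∀ N, RP (Q N))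
    (hT : TendstoLocallyUniformly (fun (N : ℕ) (w : ℂ) => (Q N).eval w) f atTop) {z : ℂ}
    (hz : 0 < z.im) : f z ≠ 0 := by
  intro h0
  have hana : AnalyticOnNhd ℂ f Set.univ := fun w _ => hf.analyticAt w
  rcases (hf.analyticAt z).eventually_eq_zero_or_eventually_ne_zero with h | h
  · have h1 : f = fun _ => 0 := hana.eq_of_eventuallyEq (fun w _ => analyticAt_const) h
    obtain ⟨w, hw⟩ := hne
    exact hw (by rw [h1])
  · rw [eventually_nhdsWithin_iff, Metric.eventually_nhds_iff_ball] at h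
    obtain ⟨ε, hε, hb⟩ := h
    set r : ℝ := min (ε / 2) (z.im / 2) with hr
    have hr0 : 0 < r := lt_min (by positivity) (by positivity)
    have hrε : r < ε := (min_le_left _ _).trans_lt (by linarith)
    have hrz : r < z.im := (min_le_right _ _).trans_lt (by linarith)
    have hsph : ∀ w ∈ Metric.sphere z r, f w ≠ 0 := by
      intro w hw
      apply hb w
      · rw [Metric.mem_ball]; rw [Metric.mem_sphere] at hw; linarith
      · intro h1
        rw [Set.mem_singleton_iff] at h1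
        rw [Metric.mem_sphere, h1, dist_self] at hw
        exact hr0.ne hw
    obtain ⟨w0, hw0, hmin⟩ := (isCompact_sphere z r).exists_isMinOn
      (NormedSpace.sphere_nonempty.2 hr0.le) (f := fun w => ‖f w‖) hf.continuous.norm.continuousOn
    set m : ℝ := ‖f w0‖ with hm
    have hm0 : 0 < m := norm_pos_iff.2 (hsph w0 hw0)
    have hmle : ∀ w ∈ Metric.sphere z r, m ≤ ‖f w‖ := fun w hw => hmin hw
    have hU := (tendstoLocallyUniformly_iff_forall_isCompact.1 hT) (Metric.closedBall z r)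
      (isCompact_closedBall z r)
    rw [Metric.tendstoUniformlyOn_iff] at hU
    have hev := hU (m / 2) (by positivity)
    have hlow : ∀ᶠ N in atTop, m / 2 ≤ ‖(Q N).eval z‖ := by
      filter_upwards [hev] with N hN
      have hQne : ∀ w ∈ Metric.closedBall z r, (Q N).eval w ≠ 0 := by
        intro w hw
        apply (hQ N).eval_ne
        have h1 : |(w - z).im| ≤ r := (abs_im_le_norm _).trans (by
          rw [Metric.mem_closedBall, dist_eq_norm] at hw; exact hw)
        rw [sub_im, abs_le] at h1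
        have : 0 < w.im := by linarith
        exact this.ne'
      have hd : DiffContOnCl ℂ (fun w => ((Q N).eval w)⁻¹) (Metric.ball z r) := by
        apply DifferentiableOn.diffContOnCl
        rw [closure_ball z hr0.ne']
        exact (Q N).differentiable.differentiableOn.fun_inv hQne
      have hfr : ∀ w ∈ frontier (Metric.ball z r), ‖((Q N).eval w)⁻¹‖ ≤ (m / 2)⁻¹ := by
        intro w hw
        rw [frontier_ball z hr0.ne'] at hw
        rw [norm_inv]
        apply inv_anti₀ (by positivity)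
        have h1 := hN w (Metric.sphere_subset_closedBall hw)
        have h2 := hmle w hw
        rw [dist_eq_norm] at h1
        have h3 : ‖f w‖ ≤ ‖f w - (Q N).eval w‖ + ‖(Q N).eval w‖ := by
          simpa using norm_add_le (f w - (Q N).eval w) ((Q N).eval w)
        linarith
      have h4 := Complex.norm_le_of_forall_mem_frontier_norm_le Metric.isBounded_ball hd hfr
        (subset_closure (Metric.mem_ball_self hr0))
      rw [norm_inv] at h4
      have h5 : 0 < ‖(Q N).eval z‖ := norm_pos_iff.2 (hQne z (Metric.mem_closedBall_self hr0.le))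
      exact (inv_le_inv₀ h5 (by positivity)).1 h4
    have hlim := (tend_at hT z).norm
    have := ge_of_tendsto hlim hlow
    rw [h0, norm_zero] at this
    linarith

lemma tend_log (hT : TendstoLocallyUniformly (fun (N : ℕ) (w : ℂ) => (Q N).eval w) f atTop)
    {z : ℂ} (hz : f z ≠ 0) :
    Tendsto (fun N => (Q N).derivative.eval z / (Q N).eval z) atTop (𝓝 (logDeriv f z)) := by
  rw [logDeriv_apply]
  exact (tend_at (tend_der hT) z).div (tend_at hT z) hz

lemma deriv_log (hf : Differentiable ℂ f) {z : ℂ} (hz : f z ≠ 0) :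
    deriv (logDeriv f) z = (deriv (deriv f) z * f z - deriv f z * deriv f z) / f z ^ 2 := by
  have h2 : Differentiable ℂ (deriv f) := hf.deriv
  have h : HasDerivAt (fun w => deriv f w / f w)
      ((deriv (deriv f) z * f z - deriv f z * deriv f z) / f z ^ 2) z :=
    (h2 z).hasDerivAt.fun_div (hf z).hasDerivAt hz
  exact h.deriv

lemma tend_dlog (hf : Differentiable ℂ f)
    (hT : TendstoLocallyUniformly (fun (N : ℕ) (w : ℂ) => (Q N).eval w) f atTop)
    {z : ℂ} (hz : f z ≠ 0) :
    Tendsto (fun N => ((Q N).derivative.derivative.eval z * (Q N).eval z -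
      (Q N).derivative.eval z * (Q N).derivative.eval z) / (Q N).eval z ^ 2) atTop
      (𝓝 (deriv (logDeriv f) z)) := by
  rw [deriv_log hf hz]
  have h0 := tend_at hT z
  have h1 := tend_at (tend_der hT) z
  have h2 := tend_at (tend_der (tend_der hT)) z
  exact ((h2.mul h0).sub (h1.mul h1)).div (h0.pow 2) (pow_ne_zero 2 hz)

theorem b1 : S_B1 := by
  intro f hRR z hz
  obtain ⟨hf, hne, Q, hQ, hT⟩ := hRR
  have hfz : f z ≠ 0 := ne_zero_of_im hf hne hQ hT hz
  have hL := tend_log hT hfz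
  have hD := tend_dlog hf hT hfz
  have hLi := ((continuous_im.tendsto _).comp hL).neg
  have hpoly : ∀ N, 0 ≤ -((Q N).derivative.eval z / (Q N).eval z).im ∧
      ‖((Q N).derivative.derivative.eval z * (Q N).eval z -
      (Q N).derivative.eval z * (Q N).derivative.eval z) / (Q N).eval z ^ 2‖ * z.im ≤
        -((Q N).derivative.eval z / (Q N).eval z).im := by
    intro N
    have hr : RP (Q N) := hQ N
    obtain ⟨n, x, hx⟩ := hr.exists_sum
    have hev := hr.eval_ne hz.ne'
    rw [RP.second hx hev, (hx z hev).2]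
    exact p1 x z hz
  refine ⟨hfz, ge_of_tendsto' hLi fun N => (hpoly N).1, ?_⟩
  exact le_of_tendsto_of_tendsto' (hD.norm.mul_const _) hLi fun N => (hpoly N).2

theorem b3 : S_B3 := by
  intro f hRR z w hz hw
  obtain ⟨hf, hne, Q, hQ, hT⟩ := hRR
  have hfz : f z ≠ 0 := ne_zero_of_im hf hne hQ hT hz
  have hfw : f w ≠ 0 := ne_zero_of_im hf hne hQ hT hw
  have hLz := tend_log hT hfz
  have hLw := tend_log hT hfw
  have hLiz := (continuous_im.tendsto _).comp hLz
  have hLiw := (continuous_im.tendsto _).comp hLw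
  refine le_of_tendsto_of_tendsto' (((hLz.sub hLw).norm.pow 2).mul_const _)
    ((hLiz.mul hLiw).const_mul _) fun N => ?_
  have hr : RP (Q N) := hQ N
  obtain ⟨n, x, hx⟩ := hr.exists_sum
  have hev := hr.eval_ne hz.ne'
  have hev' := hr.eval_ne hw.ne'
  simp only [Function.comp]
  rw [(hx z hev).2, (hx w hev').2]
  exact p3 x z w hz hw

theorem b4 : S_B4 := by
  intro f hRR z w η h hη hηh hwh hz hz2 hre
  obtain ⟨hf, hne, Q, hQ, hT⟩ := hRR
  have hz0 : 0 < z.im := hη.trans_le hz
  have hw0 : 0 < w.im := by rw [hwh]; exact hη.trans_le hηh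
  have hfz : f z ≠ 0 := ne_zero_of_im hf hne hQ hT hz0
  have hfw : f w ≠ 0 := ne_zero_of_im hf hne hQ hT hw0
  have hLiz := ((continuous_im.tendsto _).comp (tend_log hT hfz)).neg
  have hLiw := ((continuous_im.tendsto _).comp (tend_log hT hfw)).neg
  refine le_of_tendsto_of_tendsto' hLiz (hLiw.const_mul _) fun N => ?_
  have hr : RP (Q N) := hQ N
  obtain ⟨n, x, hx⟩ := hr.exists_sum
  have hev := hr.eval_ne hz0.ne'
  have hev' := hr.eval_ne hw0.ne'
  simp only [Function.comp]
  rw [(hx z hev).2, (hx w hev').2]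
  exact p4 x z w η h hη hηh hwh hz hz2 hre

theorem b2 : S_B2 := by
  intro f hRR hS t η hη
  obtain ⟨hf, hne, Q, hQ, hT⟩ := hRR
  have hreal : ∀ s : ℝ, (f s).im = 0 := by
    intro s
    have := hS s
    rw [conj_ofReal] at this
    exact conj_eq_iff_im.1 this.symm
  by_cases hft : f t = 0
  · rw [hft]
    have hfun : (⇑(starRingEnd ℂ) ∘ f ∘ ⇑(starRingEnd ℂ)) = f := by
      funext z
      simp [hS z]
    have h1 := deriv_conj_conj (f := f)
    rw [hfun] at h1
    have h2 : deriv f t = conj (deriv f t) := by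
      conv_lhs => rw [h1]
      simp
    have h3 : (deriv f t).im = 0 := conj_eq_iff_im.1 h2.symm
    have h4 : ((deriv f (t : ℂ)) ^ 2).re = (deriv f t).re ^ 2 := by
      rw [sq, mul_re, h3]; ring
    simp only [zero_mul, sub_zero, norm_zero, h4]
    have : 0 ≤ η * (deriv f (t : ℂ)).re ^ 2 := by positivity
    simpa using this
  · set z : ℂ := (t : ℂ) + η * I with hz
    have hzim : 0 < z.im := by simp [hz, hη]
    have hfz : f z ≠ 0 := ne_zero_of_im hf hne hQ hT hzim
    have hLi := ((continuous_im.tendsto _).comp (tend_log hT hfz)).neg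
    have hD := (tend_dlog hf hT hft).neg
    have hDre := ((continuous_re.tendsto _).comp hD).const_mul η
    have hDim := (continuous_im.tendsto _).comp hD
    have hne' : ∀ᶠ N in atTop, (Q N).eval (t : ℂ) ≠ 0 := (tend_at hT (t : ℂ)).eventually_ne hft
    have h1 : -(logDeriv f z).im ≤ η * (-(deriv (logDeriv f) t)).re := by
      refine le_of_tendsto_of_tendsto hLi hDre ?_
      filter_upwards [hne'] with N hN
      have hr : RP (Q N) := hQ N
      obtain ⟨n, x, hx⟩ := hr.exists_sum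
      have hev := hr.eval_ne hzim.ne'
      simp only [Function.comp]
      rw [(hx z hev).2, RP.second hx hN, neg_neg, hz]
      exact p2 x t η hη (hx t hN).1
    have h2 : (-(deriv (logDeriv f) t)).im = 0 := by
      have hconst : ∀ᶠ N in atTop, (im ∘ fun N => -(((Q N).derivative.derivative.eval (t : ℂ) * (Q N).eval (t : ℂ) -
        (Q N).derivative.eval (t : ℂ) * (Q N).derivative.eval (t : ℂ)) / (Q N).eval (t : ℂ) ^ 2)) N = 0 := by
        filter_upwards [hne'] with N hN
        have hr : RP (Q N) := hQ N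
        obtain ⟨n, x, hx⟩ := hr.exists_sum
        simp only [Function.comp]
        rw [RP.second hx hN, neg_neg]
        exact p2' x t
      exact tendsto_nhds_unique_of_eventuallyEq hDim tendsto_const_nhds hconst
    have h3 : (deriv f t) ^ 2 - f t * deriv (deriv f) t = f t ^ 2 * (-(deriv (logDeriv f) t)) := by
      rw [deriv_log hf hft]
      field_simp
      ring
    have h4 : f t ^ 2 = ((‖f t‖ ^ 2 : ℝ) : ℂ) := by
      have h5 : ((f t).re : ℂ) = f t := by
        apply Complex.ext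
        · simp
        · simp [hreal t]
      have h6 : ‖f t‖ = |(f t).re| := by
        conv_lhs => rw [← h5]
        rw [norm_real, Real.norm_eq_abs]
      rw [h6, sq_abs]
      push_cast
      rw [h5]
    rw [h3, h4, re_ofReal_mul]
    have h7 : 0 ≤ ‖f t‖ ^ 2 := by positivity
    nlinarith [mul_le_mul_of_nonneg_left h1 h7]

end Pool.Agent.N252.GN
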